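import Pool.Agent.Helper60.BFT.Defs

/-!
# Basic facts on averages over residue classes
-/

set_option autoImplicit false

open Finset

namespace Pool.Agent.Helper60.BFT

variable {L : List ℕ} {f g : (ℕ → ℕ) → ℝ}

theorem Av_nil (f : (ℕ → ℕ) → ℝ) (a : ℕ → ℕ) : Av [] f a = f a := rfl

theorem Av_cons (q : ℕ) (L : List ℕ) (f : (ℕ → ℕ) → ℝ) (a : ℕ → ℕ) :
    Av (q :: L) f a = (∑ c ∈ range q, Av L f (Function.update a q c)) / (q : ℝ) := rfl

/-- only the assignments agreeing with `a` off `L`, and with values `< q` at `q ∈ L`, matter -/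
theorem Av_congr' : ∀ (L : List ℕ), L.Nodup → ∀ (f g : (ℕ → ℕ) → ℝ) (a : ℕ → ℕ),
    (∀ b : ℕ → ℕ, (∀ q, q ∉ L → b q = a q) → (∀ q ∈ L, b q < q) → f b = g b) →
      Av L f a = Av L g a
  | [], _, f, g, a, h => h a (fun _ _ => rfl) (by simp)
  | q :: L, hL, f, g, a, h => by
    rw [Av_cons, Av_cons]
    congr 1
    apply Finset.sum_congr rfl
    intro c hc
    rw [List.nodup_cons] at hL
    apply Av_congr' L hL.2
    intro b hb hb'
    apply h
    · intro p hp
      rw [List.mem_cons, not_or] at hp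
      rw [hb p hp.2, Function.update_of_ne hp.1]
    · intro p hp
      rcases List.mem_cons.1 hp with rfl | hp
      · rw [hb p hL.1, Function.update_self]
        exact mem_range.1 hc
      · exact hb' p hp

theorem Av_congr (L : List ℕ) (f g : (ℕ → ℕ) → ℝ) (a : ℕ → ℕ)
    (h : ∀ b : ℕ → ℕ, (∀ q, q ∉ L → b q = a q) → f b = g b) : Av L f a = Av L g a := by
  induction L generalizing a with
  | nil => exact h a (fun _ _ => rfl)
  | cons q L ih =>
    rw [Av_cons, Av_cons]
    congr 1
    apply Finset.sum_congr rfl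
    intro c _
    apply ih
    intro b hb
    apply h
    intro p hp
    rw [List.mem_cons, not_or] at hp
    rw [hb p hp.2, Function.update_of_ne hp.1]

theorem Av_ext (L : List ℕ) (f g : (ℕ → ℕ) → ℝ) (a : ℕ → ℕ) (h : ∀ b, f b = g b) :
    Av L f a = Av L g a := Av_congr L f g a (fun b _ => h b)

theorem Av_mono' (L : List ℕ) (hL : L.Nodup) (f g : (ℕ → ℕ) → ℝ) (a : ℕ → ℕ)
    (h : ∀ b : ℕ → ℕ, (∀ q, q ∉ L → b q = a q) → (∀ q ∈ L, b q < q) → f b ≤ g b) :
    Av L f a ≤ Av L g a := by
  induction L generalizing a with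
  | nil => exact h a (fun _ _ => rfl) (by simp)
  | cons q L ih =>
    rw [Av_cons, Av_cons]
    rw [List.nodup_cons] at hL
    apply div_le_div_of_nonneg_right _ (Nat.cast_nonneg _)
    apply Finset.sum_le_sum
    intro c hc
    apply ih hL.2
    intro b hb hb'
    apply h
    · intro p hp
      rw [List.mem_cons, not_or] at hp
      rw [hb p hp.2, Function.update_of_ne hp.1]
    · intro p hp
      rcases List.mem_cons.1 hp with rfl | hp
      · rw [hb p hL.1, Function.update_self]
        exact mem_range.1 hc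
      · exact hb' p hp

theorem Av_mono (L : List ℕ) (f g : (ℕ → ℕ) → ℝ) (a : ℕ → ℕ) (h : ∀ b, f b ≤ g b) :
    Av L f a ≤ Av L g a := by
  induction L generalizing a with
  | nil => exact h a
  | cons q L ih =>
    rw [Av_cons, Av_cons]
    apply div_le_div_of_nonneg_right _ (Nat.cast_nonneg _)
    exact Finset.sum_le_sum (fun c _ => ih _)

theorem Av_add (L : List ℕ) (f g : (ℕ → ℕ) → ℝ) (a : ℕ → ℕ) :
    Av L (fun b => f b + g b) a = Av L f a + Av L g a := by
  induction L generalizing a with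
  | nil => rfl
  | cons q L ih =>
    simp only [Av_cons, ih, Finset.sum_add_distrib, add_div]

theorem Av_sub (L : List ℕ) (f g : (ℕ → ℕ) → ℝ) (a : ℕ → ℕ) :
    Av L (fun b => f b - g b) a = Av L f a - Av L g a := by
  induction L generalizing a with
  | nil => rfl
  | cons q L ih =>
    simp only [Av_cons, ih, Finset.sum_sub_distrib, sub_div]

theorem Av_mul_left (L : List ℕ) (x : ℝ) (f : (ℕ → ℕ) → ℝ) (a : ℕ → ℕ) :
    Av L (fun b => x * f b) a = x * Av L f a := by
  induction L generalizing a with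
  | nil => rfl
  | cons q L ih =>
    simp only [Av_cons, ih, ← Finset.mul_sum, mul_div_assoc]

theorem Av_sum {ι : Type*} (L : List ℕ) (s : Finset ι) (f : ι → (ℕ → ℕ) → ℝ) (a : ℕ → ℕ) :
    Av L (fun b => ∑ i ∈ s, f i b) a = ∑ i ∈ s, Av L (f i) a := by
  induction L generalizing a with
  | nil => rfl
  | cons q L ih =>
    simp only [Av_cons, ih]
    rw [Finset.sum_comm, Finset.sum_div]

theorem Av_const (L : List ℕ) (hL : ∀ q ∈ L, 0 < q) (x : ℝ) (a : ℕ → ℕ) :
    Av L (fun _ => x) a = x := by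
  induction L generalizing a with
  | nil => rfl
  | cons q L ih =>
    rw [Av_cons]
    have h1 : ∀ c ∈ range q, Av L (fun _ => x) (Function.update a q c) = x := fun c _ =>
      ih (fun p hp => hL p (List.mem_cons_of_mem _ hp)) _
    rw [Finset.sum_congr rfl h1, Finset.sum_const, Finset.card_range, nsmul_eq_mul]
    have h2 : (q : ℝ) ≠ 0 := by exact_mod_cast (hL q (by simp)).ne'
    field_simp

theorem Av_nonneg (L : List ℕ) (f : (ℕ → ℕ) → ℝ) (a : ℕ → ℕ) (h : ∀ b, 0 ≤ f b) : 0 ≤ Av L f a := by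
  induction L generalizing a with
  | nil => exact h a
  | cons q L ih =>
    rw [Av_cons]
    exact div_nonneg (Finset.sum_nonneg (fun c _ => ih _)) (Nat.cast_nonneg _)

theorem abs_Av_le (L : List ℕ) (f : (ℕ → ℕ) → ℝ) (a : ℕ → ℕ) :
    |Av L f a| ≤ Av L (fun b => |f b|) a := by
  induction L generalizing a with
  | nil => exact le_rfl
  | cons q L ih =>
    rw [Av_cons, Av_cons, abs_div, Nat.abs_cast]
    apply div_le_div_of_nonneg_right _ (Nat.cast_nonneg _)
    exact (Finset.abs_sum_le_sum_abs _ _).trans (Finset.sum_le_sum (fun c _ => ih _))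

theorem Av_le_const (L : List ℕ) (hL : ∀ q ∈ L, 0 < q) (f : (ℕ → ℕ) → ℝ) (x : ℝ) (a : ℕ → ℕ)
    (h : ∀ b, f b ≤ x) : Av L f a ≤ x := by
  rw [← Av_const L hL x a]
  exact Av_mono L f _ a h

theorem abs_Av_le_const (L : List ℕ) (hL : ∀ q ∈ L, 0 < q) (f : (ℕ → ℕ) → ℝ) (x : ℝ) (a : ℕ → ℕ)
    (h : ∀ b, |f b| ≤ x) : |Av L f a| ≤ x :=
  (abs_Av_le L f a).trans (Av_le_const L hL _ x a h)

/-- the average does not depend on the coordinates in `L` -/
theorem Av_off (L : List ℕ) (f : (ℕ → ℕ) → ℝ) (a b : ℕ → ℕ) (h : ∀ q, q ∉ L → a q = b q) :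
    Av L f a = Av L f b := by
  induction L generalizing a b with
  | nil =>
    have : a = b := funext (fun q => h q (by simp))
    rw [this]
  | cons q L ih =>
    rw [Av_cons, Av_cons]
    congr 1
    apply Finset.sum_congr rfl
    intro c _
    apply ih
    intro p hp
    by_cases hpq : p = q
    · subst hpq
      rw [Function.update_self, Function.update_self]
    · rw [Function.update_of_ne hpq, Function.update_of_ne hpq]
      apply h
      rw [List.mem_cons, not_or]
      exact ⟨hpq, hp⟩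

/-- factors which do not depend on the coordinates in `L` come out -/
theorem Av_mul_off (L : List ℕ) (f g : (ℕ → ℕ) → ℝ) (a : ℕ → ℕ)
    (hg : ∀ b : ℕ → ℕ, (∀ q, q ∉ L → b q = a q) → g b = g a) :
    Av L (fun b => g b * f b) a = g a * Av L f a := by
  rw [← Av_mul_left]
  exact Av_congr L _ _ a (fun b hb => by rw [hg b hb])

/-- averages of products of functions of single coordinates -/
theorem Av_prod (s : Finset ℕ) (L : List ℕ) (hL : L.Nodup) (hLs : ∀ q ∈ L, q ∈ s)
    (g : ℕ → ℕ → ℝ) (a : ℕ → ℕ) :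
    Av L (fun b => ∏ p ∈ s, g p (b p)) a
      = (∏ p ∈ s \ L.toFinset, g p (a p)) * ∏ p ∈ L.toFinset, ((∑ c ∈ range p, g p c) / (p : ℝ)) := by
  induction L generalizing a with
  | nil => simp [Av_nil]
  | cons q L ih =>
    rw [List.nodup_cons] at hL
    have ih' := fun a => ih hL.2 (fun p hp => hLs p (List.mem_cons_of_mem _ hp)) a
    rw [Av_cons]
    simp only [ih']
    have hq : q ∈ s := hLs q (by simp)
    have hqL : q ∉ L.toFinset := by
      rw [List.mem_toFinset]
      exact hL.1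
    have h1 : s \ L.toFinset = insert q (s \ (q :: L).toFinset) := by
      ext p
      simp only [mem_sdiff, List.mem_toFinset, List.mem_cons, mem_insert, not_or]
      constructor
      · rintro ⟨h1, h2⟩
        by_cases hpq : p = q
        · exact Or.inl hpq
        · exact Or.inr ⟨h1, hpq, h2⟩
      · rintro (rfl | ⟨h1, h2, h3⟩)
        · exact ⟨hq, hL.1⟩
        · exact ⟨h1, h3⟩
    have h2 : q ∉ s \ (q :: L).toFinset := by
      simp
    have h3 : ∀ c, ∏ p ∈ s \ L.toFinset, g p (Function.update a q c p)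
        = g q c * ∏ p ∈ s \ (q :: L).toFinset, g p (a p) := by
      intro c
      rw [h1, Finset.prod_insert h2, Function.update_self]
      congr 1
      apply Finset.prod_congr rfl
      intro p hp
      rw [Function.update_of_ne]
      rintro rfl
      exact h2 hp
    simp only [h3]
    have h5 : ∏ p ∈ (q :: L).toFinset, ((∑ c ∈ range p, g p c) / (p : ℝ))
        = (∑ c ∈ range q, g q c) / (q : ℝ) * ∏ p ∈ L.toFinset, ((∑ c ∈ range p, g p c) / (p : ℝ)) := by
      rw [List.toFinset_cons, Finset.prod_insert hqL]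
    rw [h5]
    have h4 : ∑ c ∈ range q, g q c * (∏ p ∈ s \ (q :: L).toFinset, g p (a p)) *
        ∏ p ∈ L.toFinset, ((∑ c ∈ range p, g p c) / (p : ℝ))
        = (∑ c ∈ range q, g q c) * ((∏ p ∈ s \ (q :: L).toFinset, g p (a p)) *
        ∏ p ∈ L.toFinset, ((∑ c ∈ range p, g p c) / (p : ℝ))) := by
      rw [Finset.sum_mul]
      apply Finset.sum_congr rfl
      intro c _
      ring
    rw [h4]
    ring

theorem mem_lg {r Z p : ℕ} : p ∈ lg r Z ↔ 5 ≤ p ∧ p ≤ Z ∧ p.Prime ∧ r < p := by
  unfold lg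
  rw [Finset.mem_toList, Finset.mem_sdiff, Helper90.Twin.mem_Ps, Helper90.Twin.mem_Ps]
  constructor
  · rintro ⟨⟨h1, h2, h3⟩, h4⟩
    refine ⟨h1, h2, h3, ?_⟩
    by_contra h
    exact h4 ⟨h1, by omega, h3⟩
  · rintro ⟨h1, h2, h3, h4⟩
    exact ⟨⟨h1, h2, h3⟩, fun h => by omega⟩

theorem lg_nodup (r Z : ℕ) : (lg r Z).Nodup := Finset.nodup_toList _

theorem lg_pos {r Z : ℕ} : ∀ q ∈ lg r Z, 0 < q := fun q hq => by
  have := (mem_lg.1 hq).1
  omega

theorem lg_prime {r Z : ℕ} : ∀ q ∈ lg r Z, q.Prime := fun q hq => (mem_lg.1 hq).2.2.1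

end Pool.Agent.Helper60.BFT
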