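import Pool.Agent.Helper60.BFT.Goals

/-!
# The steps of CORE
-/

set_option autoImplicit false

open Finset Filter Topology MeasureTheory ProbabilityTheory
open Pool.Agent.Helper90.Twin (Ps Gz GG Sz SieveSys Adm wI cc avgI sig Hf Yf Phi XX nu)

namespace Pool.Agent.Helper60.BFT

/-- KT: correlations, the large classes averaged -/
def KTG : Prop :=
  ∀ (r Z H : ℕ), 3 * H + 1 ≤ r → r ≤ Z → ∀ I : Finset ℕ, (∀ i ∈ I, i ≤ H) → ∀ (t : ℕ) (A : ℕ → ℕ),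
    Av (lg r Z) (fun B => ∏ i ∈ I, XA Z B (t + i)) A
      = (∏ p ∈ Ps Z \ Ps r, (1 - 2 * (I.card : ℝ) / (p : ℝ))) * ∏ i ∈ I, XA r A (t + i)

/-- FU: the fundamental lemma for the small classes -/
def FUG : Prop :=
  ∀ (k : ℕ) (δ : ℝ), 0 < δ → ∀ (α : ℝ), 0 ≤ α → ∃ K : ℕ, ∀ᶠ r : ℕ in atTop,
    (∀ H : ℕ, 3 * H + 1 ≤ r → ∀ I : Finset ℕ, (∀ i ∈ I, i ≤ H) → I.card ≤ k →
      ∀ (A : ℕ → ℕ) (N : ℕ),
        |∑ t ∈ range N, ∏ i ∈ I, XA r A (t + i)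
            - N * (cc (Ps r \ Ps (3 * H + 1)) I.card * avgI (Ps (3 * H + 1)) (yA A) I)|
          ≤ δ * (N * (cc (Ps r \ Ps (3 * H + 1)) I.card * avgI (Ps (3 * H + 1)) (yA A) I))
            + (N * Real.exp (-(α * Sz r)) + (r : ℝ) ^ K)) ∧
    (∀ (A : ℕ → ℕ) (N : ℕ),
        |∑ t ∈ range N, XA r A t - N * Gz r|
          ≤ δ * (N * Gz r) + (N * Real.exp (-(α * Sz r)) + (r : ℝ) ^ K)) ∧
    (∀ (A : ℕ → ℕ) (N : ℕ),
        |∑ t ∈ range N, XA r A (2 * t) - N * Gz r|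
          ≤ δ * (N * Gz r) + (N * Real.exp (-(α * Sz r)) + (r : ℝ) ^ K))

/-- the correlation hypothesis -/
def CorrA (r Z H k N : ℕ) (A : ℕ → ℕ) (δ E : ℝ) : Prop :=
  ∀ I : Finset ℕ, I.Nonempty → (∀ i ∈ I, i ≤ H) → I.card ≤ k →
    |Av (lg r Z) (fun B => ∑ t ∈ range N, ∏ i ∈ I, XA Z B (t + i)) A
        - N * (cc (Ps Z \ Ps (3 * H + 1)) I.card * avgI (Ps (3 * H + 1)) (yA A) I)|
      ≤ δ * (N * (cc (Ps Z \ Ps (3 * H + 1)) I.card * avgI (Ps (3 * H + 1)) (yA A) I)) + E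

/-- SG: the signed sum, averaged -/
def SGG : Prop :=
  ∀ (r Z H R N : ℕ) (A : ℕ → ℕ) (δ E : ℝ), 1 ≤ H → 3 * H + 1 ≤ r → r ≤ Z → R + 2 ≤ H → 0 ≤ δ →
    0 ≤ E → CorrA r Z H (R + 2) N A δ E →
    |Av (lg r Z) (fun B => ∑ t ∈ range N, XA Z B t * sig (XA Z B) H t) A|
      ≤ ∑ j ∈ range R, (N * (cc (Ps Z \ Ps (3 * H + 1)) (j + 2) * ((H : ℝ) ^ j * Real.sqrt H))
            + (δ * (N * (cc (Ps Z \ Ps (3 * H + 1)) (j + 2) *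
                ((Gz (3 * H + 1) * (2 * (H * Gz (3 * H + 1))) ^ (j + 1)
                + (H : ℝ) ^ j / Gz (3 * H + 1) ^ 2) / (j.factorial : ℝ))))
                + (H : ℝ) ^ (j + 1) * E))
        + ((1 + δ) * (N * (cc (Ps Z \ Ps (3 * H + 1)) (R + 2) *
            ((Gz (3 * H + 1) * (2 * (H * Gz (3 * H + 1))) ^ (R + 1)
            + (H : ℝ) ^ R / Gz (3 * H + 1) ^ 2) / (R.factorial : ℝ)))) + (H : ℝ) ^ (R + 1) * E)

/-- MI: the main inequality -/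
def MIG : Prop :=
  ∀ (lam : ℝ), 1 ≤ lam → ∀ (r Z R N : ℕ) (A : ℕ → ℕ) (δ E : ℝ), Yf lam Z ≤ r → r ≤ Z →
    R + 2 ≤ Hf lam Z → 0 ≤ δ → 0 ≤ E → CorrA r Z (Hf lam Z) (R + 2) N A δ E →
    |Av (lg r Z) (fun B => B2 (XA Z B) N) A|
      ≤ N * Gz Z * ((R + 1) * ((2 * lam) ^ R * Phi lam (R + 4) Z)
          + (4 * lam) ^ (R + 1) / (R.factorial : ℝ)
          + δ * ((R + 1) * ((4 * lam) ^ (R + 1) + (2 * lam) ^ R * Phi lam (R + 4) Z)) + 1 / lam) + 2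
        + (R + 1) * (2 * lam / Gz Z) ^ (R + 1) * E

end Pool.Agent.Helper60.BFT
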