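import Pool.Agent.Helper60.BFT.GoalsC
import Pool.Agent.Helper60.BFT.AvBasic

/-!
# CORE from its steps
-/

set_option autoImplicit false

open Finset Filter Topology MeasureTheory ProbabilityTheory
open Pool.Agent.Helper90.Twin (Ps Gz GG Sz SieveSys Adm wI cc avgI sig Hf Yf Phi XX nu mem_Ps Ps_mono)

namespace Pool.Agent.Helper60.BFT

theorem XA_zero_one (Z : ℕ) (A : ℕ → ℕ) (t : ℕ) : XA Z A t = 0 ∨ XA Z A t = 1 := by
  unfold XA XX
  by_cases h : ∃ p ∈ Ps Z, yA A p t = 1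
  · obtain ⟨p, hp, h1⟩ := h
    left
    exact Finset.prod_eq_zero hp (by rw [h1]; ring)
  · right
    apply Finset.prod_eq_one
    intro p hp
    have h1 : yA A p t = 0 ∨ yA A p t = 1 := by
      unfold yA
      split_ifs
      · exact Or.inr rfl
      · exact Or.inl rfl
    rcases h1 with h1 | h1
    · rw [h1]
      ring
    · exact absurd ⟨p, hp, h1⟩ h

theorem XA_nonneg (Z : ℕ) (A : ℕ → ℕ) (t : ℕ) : 0 ≤ XA Z A t := by
  rcases XA_zero_one Z A t with h | h <;> rw [h] <;> norm_num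

theorem Sz_pow_two : ∀ (m r Z : ℕ), Z ≤ r ^ (2 ^ m) → Sz Z ≤ Sz r + 12 * m
  | 0, r, Z, h => by
    have : Z ≤ r := by simpa using h
    simpa using Helper90.Twin.Sz_mono this
  | m + 1, r, Z, h => by
    rcases Nat.lt_or_ge Z 4 with h4 | h4
    · have h0 : Sz Z = 0 := by
        unfold Sz
        apply Finset.sum_eq_zero
        intro p hp
        have := (mem_Ps.1 hp)
        omega
      rw [h0]
      have := Helper90.Twin.Sz_nonneg r
      positivity
    · have h1 : Nat.sqrt Z ≤ r ^ (2 ^ m) := by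
        have h2 : Nat.sqrt Z ^ 2 ≤ (r ^ (2 ^ m)) ^ 2 := by
          rw [← pow_mul, ← pow_succ]
          exact (Nat.sqrt_le' Z).trans h
        exact (Nat.pow_le_pow_iff_left (by norm_num)).1 h2
      have h2 := Sz_pow_two m r (Nat.sqrt Z) h1
      have h3 : Sz Z = (∑ p ∈ Ps Z \ Ps (Nat.sqrt Z), 1 / (p : ℝ)) + Sz (Nat.sqrt Z) := by
        unfold Sz
        rw [Finset.sum_sdiff (Ps_mono (Nat.sqrt_le_self Z))]
      have h4' := Helper90.Twin.block_sum Z h4
      rw [h3]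
      push_cast
      linarith

theorem Sz_pow (K r Z : ℕ) (hr : 1 ≤ r) (h : Z ≤ r ^ K) : Sz Z ≤ Sz r + 12 * K := by
  apply Sz_pow_two
  refine h.trans (Nat.pow_le_pow_right hr ?_)
  exact Nat.lt_two_pow_self.le

/-- the factor of the large primes for one element -/
theorem Gz_ratio {r Z : ℕ} (hrZ : r ≤ Z) :
    (∏ p ∈ Ps Z \ Ps r, (1 - 2 * (1 : ℝ) / (p : ℝ))) * Gz r = Gz Z := by
  unfold Gz GG
  rw [← Finset.prod_sdiff (Ps_mono hrZ)]
  simp

theorem rho_nonneg {r Z k : ℕ} (h : ∀ p ∈ Ps Z \ Ps r, 2 * k ≤ p) :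
    0 ≤ ∏ p ∈ Ps Z \ Ps r, (1 - 2 * (k : ℝ) / (p : ℝ)) := by
  apply Finset.prod_nonneg
  intro p hp
  have h1 : (2 * k : ℝ) ≤ p := by exact_mod_cast h p hp
  have h2 : (0 : ℝ) < p := by
    have := (mem_Ps.1 (Finset.mem_sdiff.1 hp).1).1
    exact_mod_cast (by omega : 0 < p)
  rw [sub_nonneg, div_le_one h2]
  exact h1

theorem rho_le_one {r Z k : ℕ} (h : ∀ p ∈ Ps Z \ Ps r, 2 * k ≤ p) :
    ∏ p ∈ Ps Z \ Ps r, (1 - 2 * (k : ℝ) / (p : ℝ)) ≤ 1 := by
  apply Finset.prod_le_one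
  · intro p hp
    have h1 : (2 * k : ℝ) ≤ p := by exact_mod_cast h p hp
    have h2 : (0 : ℝ) < p := by
      have := (mem_Ps.1 (Finset.mem_sdiff.1 hp).1).1
      exact_mod_cast (by omega : 0 < p)
    rw [sub_nonneg, div_le_one h2]
    exact h1
  · intro p _
    have : (0 : ℝ) ≤ 2 * (k : ℝ) / (p : ℝ) := by positivity
    linarith

/-- the correlations with averaged large classes -/
theorem corrA_of (hKT : KTG) {r Z H k N : ℕ} (hH : 3 * H + 1 ≤ r) (hrZ : r ≤ Z)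
    (hk : 2 * k ≤ r) {A : ℕ → ℕ} {δ E : ℝ} (hE : 0 ≤ E)
    (hF : ∀ I : Finset ℕ, (∀ i ∈ I, i ≤ H) → I.card ≤ k →
        |∑ t ∈ range N, ∏ i ∈ I, XA r A (t + i)
            - N * (cc (Ps r \ Ps (3 * H + 1)) I.card * avgI (Ps (3 * H + 1)) (yA A) I)|
          ≤ δ * (N * (cc (Ps r \ Ps (3 * H + 1)) I.card * avgI (Ps (3 * H + 1)) (yA A) I)) + E) :
    CorrA r Z H k N A δ E := by
  intro I _ hI hcard
  have hbig : ∀ p ∈ Ps Z \ Ps r, 2 * I.card ≤ p := by
    intro p hp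
    rw [Finset.mem_sdiff, mem_Ps, mem_Ps] at hp
    have : r < p := by
      by_contra hcon
      exact hp.2 ⟨hp.1.1, by omega, hp.1.2.2⟩
    omega
  set ρ := ∏ p ∈ Ps Z \ Ps r, (1 - 2 * (I.card : ℝ) / (p : ℝ)) with hρ
  have hρ0 : 0 ≤ ρ := rho_nonneg hbig
  have hρ1 : ρ ≤ 1 := rho_le_one hbig
  have h1 : Av (lg r Z) (fun B => ∑ t ∈ range N, ∏ i ∈ I, XA Z B (t + i)) A
      = ρ * ∑ t ∈ range N, ∏ i ∈ I, XA r A (t + i) := by
    rw [Av_sum, Finset.mul_sum]
    apply Finset.sum_congr rfl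
    intro t _
    exact hKT r Z H hH hrZ I hI t A
  have h2 : cc (Ps Z \ Ps (3 * H + 1)) I.card = ρ * cc (Ps r \ Ps (3 * H + 1)) I.card := by
    unfold cc
    rw [hρ, ← Finset.prod_union]
    · apply Finset.prod_congr _ (fun _ _ => rfl)
      ext p
      simp only [Finset.mem_union, Finset.mem_sdiff]
      have ha : p ∈ Ps (3 * H + 1) → p ∈ Ps r := fun h => Ps_mono hH h
      have hb : p ∈ Ps r → p ∈ Ps Z := fun h => Ps_mono hrZ h
      tauto
    · rw [Finset.disjoint_left]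
      intro p hp hp'
      exact (Finset.mem_sdiff.1 hp).2 (Finset.mem_sdiff.1 hp').1
  rw [h1, h2]
  set S := ∑ t ∈ range N, ∏ i ∈ I, XA r A (t + i)
  set W := cc (Ps r \ Ps (3 * H + 1)) I.card * avgI (Ps (3 * H + 1)) (yA A) I with hW
  have e1 : N * (ρ * cc (Ps r \ Ps (3 * H + 1)) I.card * avgI (Ps (3 * H + 1)) (yA A) I)
      = ρ * (N * W) := by rw [hW]; ring
  rw [e1, ← mul_sub, abs_mul, abs_of_nonneg hρ0]
  have h3 := mul_le_mul_of_nonneg_left (hF I hI hcard) hρ0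
  have h4 : ρ * E ≤ E := by nlinarith
  calc ρ * |S - N * W| ≤ ρ * (δ * (N * W) + E) := h3
    _ = δ * (ρ * (N * W)) + ρ * E := by ring
    _ ≤ _ := by linarith

/-- everything about the sizes that is used below -/
theorem sizes {lam : ℝ} (hlam : 1 ≤ lam) (R : ℕ) {ε' : ℝ} (hε' : 0 < ε') (K' : ℕ) {c : ℝ}
    (D : ℝ) :
    ∀ᶠ r : ℕ in atTop, ∀ Z : ℕ, r ≤ Z → Z ≤ r ^ K' →
      Sz Z ≤ Sz r + 12 * K' ∧ Yf lam Z ≤ r ∧ R ≤ Hf lam Z ∧ Phi lam (R + 2) Z ≤ ε' ∧
      D ≤ Sz r ∧ c ≤ r := by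
  obtain ⟨z1, hz1⟩ := (Helper90.Twin.eventually_Phi_le hlam (R + 2) hε').exists_forall_of_atTop
  obtain ⟨z2, hz2⟩ := (Helper90.Twin.eventually_Hf_ge hlam R).exists_forall_of_atTop
  filter_upwards [eventually_ge_atTop z1, eventually_ge_atTop z2, eventually_ge_atTop 1,
    Helper90.Twin.eventually_Sz_le (c := 10 / 3) (by norm_num)
      (Real.log (7 * lam * Real.exp (40 * K'))),
    Helper90.Twin.tendsto_Sz.eventually_ge_atTop D,
    (tendsto_natCast_atTop_atTop (R := ℝ)).eventually_ge_atTop c] with r h1 h2 h3 h4 h5 h6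
  intro Z hrZ hZ
  have hS := Sz_pow K' r Z h3 hZ
  refine ⟨hS, ?_, hz2 Z (h2.trans hrZ), hz1 Z (h1.trans hrZ), h5, h6⟩
  have hr0 : (0 : ℝ) < r := by exact_mod_cast h3
  have e1 : (Yf lam Z : ℝ) ≤ r := by
    calc (Yf lam Z : ℝ) ≤ 7 * lam * (Gz Z)⁻¹ := Helper90.Twin.Yf_le hlam Z
      _ ≤ 7 * lam * Real.exp (10 / 3 * Sz Z) :=
          mul_le_mul_of_nonneg_left (Helper90.Twin.inv_Gz_le Z) (by positivity)
      _ ≤ 7 * lam * Real.exp (10 / 3 * Sz r + 40 * K') := by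
          apply mul_le_mul_of_nonneg_left _ (by positivity)
          apply Real.exp_le_exp.2
          linarith
      _ = Real.exp (10 / 3 * Sz r) * (7 * lam * Real.exp (40 * K')) := by
          rw [Real.exp_add]
          ring
      _ = Real.exp (10 / 3 * Sz r + Real.log (7 * lam * Real.exp (40 * K'))) := by
          rw [Real.exp_add, Real.exp_log (by positivity)]
      _ ≤ Real.exp (Real.log r) := Real.exp_le_exp.2 h4
      _ = r := Real.exp_log hr0
  exact_mod_cast e1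

theorem core_of (hKT : KTG) (hFU : FUG) (hMI : MIG) : COREG := by
  intro ε hε
  set lam : ℝ := max 1 (10 / ε) with hlamdef
  have hlam : 1 ≤ lam := le_max_left _ _
  have hlam2 : 1 / lam ≤ ε / 10 := by
    have h1 : 10 / ε ≤ lam := le_max_right _ _
    rw [div_le_iff₀ (by linarith)]
    rw [div_le_iff₀ hε] at h1
    linarith
  obtain ⟨R, hR⟩ := Helper90.Twin.exists_R (4 * lam) (show 0 < ε / 10 by positivity)
  have hR1 : (1 : ℝ) ≤ (R : ℝ) + 1 := by
    have : (0 : ℝ) ≤ R := Nat.cast_nonneg _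
    linarith
  set δ : ℝ := ε / 10 / ((R + 1) * ((4 * lam) ^ (R + 1) + 1)) with hδdef
  have hden : 0 < ((R : ℝ) + 1) * ((4 * lam) ^ (R + 1) + 1) := by positivity
  have hδ0 : 0 < δ := by positivity
  have hδmul : δ * ((R + 1) * ((4 * lam) ^ (R + 1) + 1)) = ε / 10 := by
    rw [hδdef]
    field_simp
  have hδ1 : δ ≤ ε / 10 := by
    rw [hδdef]
    apply div_le_self (by positivity)
    have : (0 : ℝ) ≤ (4 * lam) ^ (R + 1) := by positivity
    nlinarith
  set κ' : ℝ := 10 / 3 * ((R : ℝ) + 2) with hκ'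
  have hR0 : (0 : ℝ) ≤ R := Nat.cast_nonneg _
  have hκ'0 : 0 < κ' := by rw [hκ']; positivity
  obtain ⟨K, hK⟩ := hFU (R + 2) δ hδ0 (κ' + 1) (by linarith)
  refine ⟨K + 4, ?_⟩
  intro K' hK'
  set D0 : ℝ := ((R : ℝ) + 1) * (2 * lam) ^ (R + 1) * Real.exp (12 * κ' * K') with hD0
  have hD0pos : 0 < D0 := by positivity
  set C1 : ℝ := Real.exp (12 * κ' * K') with hC1
  have hC1pos : 0 < C1 := Real.exp_pos _
  filter_upwards [hK, sizes hlam (R + 2)
      (show 0 < min (ε / 10 / ((R + 1) * (2 * lam) ^ R)) (1 / (2 * lam) ^ R) by positivity)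
      K' (c := max (max (20 * D0 / ε) (20 * C1 / ε)) (2 * (R + 2)))
      (Real.log (20 * D0 / ε)),
    Helper90.Twin.eventually_Sz_le hκ'0 0, eventually_ge_atTop 5] with r hr1 hr2 hr3 hr5
  intro Z hrZ hZ N hN A
  obtain ⟨hS, hY, hHf, hPhi, hSD, hrc⟩ := hr2 Z hrZ hZ
  have hr7 : 20 * D0 / ε ≤ r := (le_max_left _ _).trans ((le_max_left _ _).trans hrc)
  have hr8 : 20 * C1 / ε ≤ r := (le_max_right _ _).trans ((le_max_left _ _).trans hrc)
  have hr9 : 2 * (R + 2) ≤ r := by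
    have : 2 * ((R : ℝ) + 2) ≤ r := (le_max_right _ _).trans hrc
    exact_mod_cast this
  have hr0 : (1 : ℝ) ≤ r := by exact_mod_cast (by omega : 1 ≤ r)
  have hNR : (r : ℝ) ^ (K + 2) ≤ N := by
    have h1 : r ^ (K + 2) ≤ N := (Nat.pow_le_pow_right (by omega) (by omega)).trans hN
    exact_mod_cast h1
  have hN0 : (0 : ℝ) < N := lt_of_lt_of_le (by positivity) hNR
  set S := Sz r with hSdef
  have hG : 0 < Gz Z := Helper90.Twin.Gz_pos Z
  have hG1 : Gz Z ≤ 1 := Helper90.Twin.Gz_le_one Z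
  have hGr : 0 < Gz r := Helper90.Twin.Gz_pos r
  have hNG : 0 ≤ (N : ℝ) * Gz Z := by positivity
  set E : ℝ := N * Real.exp (-((κ' + 1) * S)) + (r : ℝ) ^ K with hE
  have hE0 : 0 ≤ E := by positivity
  have hGinv : ((Gz Z)⁻¹) ^ (R + 2) ≤ C1 * Real.exp (κ' * S) := by
    calc ((Gz Z)⁻¹) ^ (R + 2) ≤ (Real.exp (10 / 3 * Sz Z)) ^ (R + 2) :=
          pow_le_pow_left₀ (inv_pos.2 hG).le (Helper90.Twin.inv_Gz_le Z) _
      _ = Real.exp (κ' * Sz Z) := by
          rw [← Real.exp_nat_mul]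
          congr 1
          rw [hκ']
          push_cast
          ring
      _ ≤ Real.exp (κ' * (S + 12 * K')) := by
          apply Real.exp_le_exp.2
          exact mul_le_mul_of_nonneg_left hS hκ'0.le
      _ = _ := by
          rw [hC1, ← Real.exp_add]
          congr 1
          ring
  have hexpz : Real.exp (κ' * S) ≤ r := by
    calc Real.exp (κ' * S) ≤ Real.exp (Real.log r) := Real.exp_le_exp.2 (by linarith)
      _ = r := Real.exp_log (by linarith)
  have hGinv1 : (Gz Z)⁻¹ ≤ C1 * r := by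
    calc (Gz Z)⁻¹ = ((Gz Z)⁻¹) ^ 1 := (pow_one _).symm
      _ ≤ ((Gz Z)⁻¹) ^ (R + 2) := pow_le_pow_right₀ ((one_le_inv₀ hG).2 hG1) (by omega)
      _ ≤ C1 * Real.exp (κ' * S) := hGinv
      _ ≤ _ := mul_le_mul_of_nonneg_left hexpz hC1pos.le
  -- the constant is small
  have hone : 2 ≤ ε / 10 * (N * Gz Z) := by
    have h1 : (20 / ε) * (Gz Z)⁻¹ ≤ N := by
      calc (20 / ε) * (Gz Z)⁻¹ ≤ 20 / ε * (C1 * r) :=
            mul_le_mul_of_nonneg_left hGinv1 (by positivity)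
        _ = (20 * C1 / ε) * r := by ring
        _ ≤ r * r := mul_le_mul_of_nonneg_right hr8 (by linarith)
        _ = (r : ℝ) ^ 2 := by ring
        _ ≤ (r : ℝ) ^ (K + 2) := pow_le_pow_right₀ hr0 (by omega)
        _ ≤ N := hNR
    have h7 : (20 / ε) ≤ N * Gz Z := by
      rw [← div_eq_mul_inv, div_le_iff₀ hG] at h1
      exact h1
    rw [div_le_iff₀ hε] at h7
    linarith
  -- the error
  have hEle : ((R : ℝ) + 1) * (2 * lam / Gz Z) ^ (R + 1) * E ≤ ε / 10 * (N * Gz Z) := by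
    have h1 : ((R : ℝ) + 1) * (2 * lam / Gz Z) ^ (R + 1)
        = ((R : ℝ) + 1) * (2 * lam) ^ (R + 1) * (Gz Z * ((Gz Z)⁻¹) ^ (R + 2)) := by
      have h21 : Gz Z * ((Gz Z)⁻¹) ^ (R + 2) = ((Gz Z)⁻¹) ^ (R + 1) := by
        rw [pow_succ, mul_comm, mul_assoc, inv_mul_cancel₀ hG.ne', mul_one]
      rw [h21, div_pow, inv_pow]
      field_simp
    rw [h1]
    have h2 : Real.exp (κ' * S) * E ≤ N * Real.exp (-S) + r * (r : ℝ) ^ K := by
      rw [hE, mul_add]
      apply add_le_add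
      · apply le_of_eq
        have : Real.exp (κ' * S) * Real.exp (-((κ' + 1) * S)) = Real.exp (-S) := by
          rw [← Real.exp_add]
          congr 1
          ring
        calc Real.exp (κ' * S) * (N * Real.exp (-((κ' + 1) * S)))
            = N * (Real.exp (κ' * S) * Real.exp (-((κ' + 1) * S))) := by ring
          _ = _ := by rw [this]
      · exact mul_le_mul_of_nonneg_right hexpz (by positivity)
    have h3 : D0 * (N * Real.exp (-S)) ≤ ε / 20 * N := by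
      have h4 : Real.exp (-S) ≤ ε / (20 * D0) := by
        rw [Real.exp_neg, inv_le_comm₀ (Real.exp_pos _) (by positivity), inv_div]
        rwa [Real.log_le_iff_le_exp (by positivity)] at hSD
      calc D0 * (N * Real.exp (-S)) ≤ D0 * (N * (ε / (20 * D0))) := by
            apply mul_le_mul_of_nonneg_left _ hD0pos.le
            exact mul_le_mul_of_nonneg_left h4 hN0.le
        _ = ε / 20 * N := by field_simp
    have h5 : D0 * (r * (r : ℝ) ^ K) ≤ ε / 20 * N := by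
      have h6 : D0 ≤ ε / 20 * r := by
        rw [div_le_iff₀ hε] at hr7
        linarith
      calc D0 * (r * (r : ℝ) ^ K) ≤ (ε / 20 * r) * (r * (r : ℝ) ^ K) :=
            mul_le_mul_of_nonneg_right h6 (by positivity)
        _ = ε / 20 * (r : ℝ) ^ (K + 2) := by ring
        _ ≤ _ := mul_le_mul_of_nonneg_left hNR (by positivity)
    set Q : ℝ := ((R : ℝ) + 1) * (2 * lam) ^ (R + 1) with hQ
    have hQ0 : 0 < Q := by positivity
    have hD0Q : D0 = Q * C1 := rfl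
    calc Q * (Gz Z * ((Gz Z)⁻¹) ^ (R + 2)) * E
        = Q * Gz Z * (((Gz Z)⁻¹) ^ (R + 2) * E) := by ring
      _ ≤ Q * Gz Z * (C1 * Real.exp (κ' * S) * E) := by
          apply mul_le_mul_of_nonneg_left _ (by positivity)
          exact mul_le_mul_of_nonneg_right hGinv hE0
      _ = Q * Gz Z * C1 * (Real.exp (κ' * S) * E) := by ring
      _ ≤ Q * Gz Z * C1 * (N * Real.exp (-S) + r * (r : ℝ) ^ K) := by
          apply mul_le_mul_of_nonneg_left h2 (by positivity)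
      _ = Gz Z * (D0 * (N * Real.exp (-S)) + D0 * (r * (r : ℝ) ^ K)) := by rw [hD0Q]; ring
      _ ≤ Gz Z * (ε / 20 * N + ε / 20 * N) := by
          apply mul_le_mul_of_nonneg_left _ hG.le
          linarith
      _ = _ := by ring
  have hP1 : 1 ≤ ((R : ℝ) + 1) * (2 * lam / Gz Z) ^ (R + 1) := by
    have h2 : (1 : ℝ) ≤ (2 * lam / Gz Z) ^ (R + 1) := by
      apply one_le_pow₀
      rw [le_div_iff₀ hG]
      linarith
    nlinarith
  have hEle1 : E ≤ ε / 10 * (N * Gz Z) := by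
    calc E = 1 * E := (one_mul _).symm
      _ ≤ ((R : ℝ) + 1) * (2 * lam / Gz Z) ^ (R + 1) * E := mul_le_mul_of_nonneg_right hP1 hE0
      _ ≤ _ := hEle
  have hδNG : δ * (N * Gz Z) ≤ ε / 10 * (N * Gz Z) := mul_le_mul_of_nonneg_right hδ1 hNG
  have hεNG : 0 ≤ ε * (N * Gz Z) := by positivity
  -- one element
  set ρ := ∏ p ∈ Ps Z \ Ps r, (1 - 2 * (1 : ℝ) / (p : ℝ)) with hρ
  have hbig : ∀ p ∈ Ps Z \ Ps r, 2 * 1 ≤ p := fun p hp => by
    have := (mem_Ps.1 (Finset.mem_sdiff.1 hp).1).1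
    omega
  have hρ0 : 0 ≤ ρ := by
    have := rho_nonneg (k := 1) hbig
    rwa [Nat.cast_one] at this
  have hρ1 : ρ ≤ 1 := by
    have := rho_le_one (k := 1) hbig
    rwa [Nat.cast_one] at this
  have hρG : ρ * Gz r = Gz Z := Gz_ratio hrZ
  have hX1 : ∀ t (A : ℕ → ℕ), Av (lg r Z) (fun B => XA Z B t) A = ρ * XA r A t := by
    intro t A
    have h1 := hKT r Z 0 (by omega) hrZ {0} (by simp) t A
    rw [hρ]
    simpa using h1
  have hcount : |ρ * ∑ t ∈ range N, XA r A t - N * Gz Z| ≤ δ * (N * Gz Z) + E := by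
    have h1 := mul_le_mul_of_nonneg_left (hr1.2.1 A N) hρ0
    have e1 : ρ * ∑ t ∈ range N, XA r A t - N * Gz Z
        = ρ * (∑ t ∈ range N, XA r A t - N * Gz r) := by
      rw [← hρG]
      ring
    rw [e1, abs_mul, abs_of_nonneg hρ0]
    refine h1.trans ?_
    have h2 : ρ * E ≤ E := by nlinarith
    calc ρ * (δ * (N * Gz r) + (N * Real.exp (-((κ' + 1) * S)) + (r : ℝ) ^ K))
        = δ * (N * (ρ * Gz r)) + ρ * E := by rw [hE]; ring
      _ ≤ _ := by rw [hρG]; linarith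
  refine ⟨?_, ?_, ?_⟩
  · have h1 : Av (lg r Z) (fun B => B0 (XA Z B) N) A = ρ * ∑ t ∈ range N, XA r A t := by
      unfold B0
      rw [Av_sum, Finset.mul_sum]
      exact Finset.sum_congr rfl (fun t _ => hX1 t A)
    rw [h1]
    linarith
  · have h1 : Av (lg r Z) (fun B => B1 (XA Z B) N) A = ρ * ∑ t ∈ range N, (-1 : ℝ) ^ t * XA r A t := by
      unfold B1
      rw [Av_sum, Finset.mul_sum]
      apply Finset.sum_congr rfl
      intro t _
      rw [Av_mul_left, hX1]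
      ring
    rw [h1]
    set N' := (N + 1) / 2 with hN'
    have h1 := hr1.2.2 A N'
    have h2 := Helper90.Twin.even_sum (XA r A) N
    rw [← hN'] at h2
    rw [← h2] at h1
    have hN'N : (N' : ℝ) ≤ N := by
      have : 1 ≤ N := by exact_mod_cast hN0
      exact_mod_cast (by omega : N' ≤ N)
    have hN'1 : (2 * N' : ℝ) ≤ N + 1 := by exact_mod_cast (by omega : 2 * N' ≤ N + 1)
    have hN'2 : (N : ℝ) ≤ 2 * N' := by exact_mod_cast (by omega : N ≤ 2 * N')
    have h3 : ρ * (δ * (N' * Gz r) + (N' * Real.exp (-((κ' + 1) * S)) + (r : ℝ) ^ K))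
        ≤ δ * (N * Gz Z) + E := by
      have h4 : ρ * (N' * Real.exp (-((κ' + 1) * S)) + (r : ℝ) ^ K) ≤ E := by
        have h5 : N' * Real.exp (-((κ' + 1) * S)) + (r : ℝ) ^ K ≤ E := by
          rw [hE]
          apply add_le_add _ le_rfl
          exact mul_le_mul_of_nonneg_right hN'N (Real.exp_pos _).le
        have h6 : 0 ≤ N' * Real.exp (-((κ' + 1) * S)) + (r : ℝ) ^ K := by positivity
        nlinarith
      have h7 : ρ * (δ * (N' * Gz r)) ≤ δ * (N * Gz Z) := by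
        calc ρ * (δ * (N' * Gz r)) = δ * (N' * (ρ * Gz r)) := by ring
          _ = δ * (N' * Gz Z) := by rw [hρG]
          _ ≤ _ := by
            apply mul_le_mul_of_nonneg_left _ hδ0.le
            exact mul_le_mul_of_nonneg_right hN'N hG.le
      rw [mul_add]
      linarith
    have h4 : |ρ * (∑ t ∈ range N, (1 + (-1 : ℝ) ^ t) / 2 * XA r A t - N' * Gz r)|
        ≤ δ * (N * Gz Z) + E := by
      rw [abs_mul, abs_of_nonneg hρ0]
      exact (mul_le_mul_of_nonneg_left h1 hρ0).trans h3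
    have e4 : ρ * ∑ t ∈ range N, (-1 : ℝ) ^ t * XA r A t
        = 2 * (ρ * (∑ t ∈ range N, (1 + (-1 : ℝ) ^ t) / 2 * XA r A t - N' * Gz r))
          + (2 * N' - N) * Gz Z - (ρ * ∑ t ∈ range N, XA r A t - N * Gz Z) := by
      have e5 : ∑ t ∈ range N, (1 + (-1 : ℝ) ^ t) / 2 * XA r A t
          = (∑ t ∈ range N, XA r A t) / 2 + (∑ t ∈ range N, (-1 : ℝ) ^ t * XA r A t) / 2 := by
        rw [Finset.sum_div, Finset.sum_div, ← Finset.sum_add_distrib]
        apply Finset.sum_congr rfl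
        intro t _
        ring
      rw [e5, ← hρG]
      ring
    rw [e4]
    have h5 : 0 ≤ (2 * (N' : ℝ) - N) * Gz Z := mul_nonneg (by linarith) hG.le
    have h6 : (2 * (N' : ℝ) - N) * Gz Z ≤ 1 := by
      calc (2 * (N' : ℝ) - N) * Gz Z ≤ 1 * 1 := mul_le_mul (by linarith) hG1 hG.le (by norm_num)
        _ = 1 := by norm_num
    have h7 := abs_le.1 h4
    have h8 := abs_le.1 hcount
    rw [abs_le]
    constructor <;> linarith [h7.1, h7.2, h8.1, h8.2]
  · have hcorr : CorrA r Z (Hf lam Z) (R + 2) N A δ E := by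
      apply corrA_of hKT hY hrZ hr9 hE0
      intro I hI hcard
      exact hr1.1 (Hf lam Z) hY I hI hcard A N
    refine (hMI lam hlam r Z R N A δ E hY hrZ hHf hδ0.le hE0 hcorr).trans ?_
    have h2lR : 0 < (2 * lam) ^ R := by positivity
    have h5 : ((R : ℝ) + 1) * ((2 * lam) ^ R * Phi lam (R + 4) Z) ≤ ε / 10 := by
      have h6 : 0 < ((R : ℝ) + 1) * (2 * lam) ^ R := by positivity
      have h7 := hPhi.trans (min_le_left _ _)
      rw [le_div_iff₀ h6] at h7
      linarith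
    have h8 : (2 * lam) ^ R * Phi lam (R + 4) Z ≤ 1 := by
      have h7 := hPhi.trans (min_le_right _ _)
      rw [le_div_iff₀ h2lR] at h7
      linarith
    have h9 : δ * ((R + 1) * ((4 * lam) ^ (R + 1) + (2 * lam) ^ R * Phi lam (R + 4) Z)) ≤ ε / 10 := by
      rw [← hδmul]
      apply mul_le_mul_of_nonneg_left _ hδ0.le
      apply mul_le_mul_of_nonneg_left _ (by linarith)
      linarith
    have h10 : (N : ℝ) * Gz Z * (((R : ℝ) + 1) * ((2 * lam) ^ R * Phi lam (R + 4) Z)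
        + (4 * lam) ^ (R + 1) / (R.factorial : ℝ)
        + δ * ((R + 1) * ((4 * lam) ^ (R + 1) + (2 * lam) ^ R * Phi lam (R + 4) Z)) + 1 / lam)
        ≤ N * Gz Z * (ε / 10 + ε / 10 + ε / 10 + ε / 10) := by
      apply mul_le_mul_of_nonneg_left _ hNG
      linarith
    linarith

end Pool.Agent.Helper60.BFT
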