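import Pool.Agent.Helper60.BFT.Defs

/-!
# The steps, as propositions
-/

set_option autoImplicit false

open Finset Filter Topology MeasureTheory ProbabilityTheory
open Pool.Agent.Helper90.Twin (Ps Gz)

namespace Pool.Agent.Helper60.BFT

/-- VAR: martingale bound for bounded differences -/
def VARG : Prop :=
  ∀ (L : List ℕ), L.Nodup → (∀ q ∈ L, 0 < q) → ∀ (f : (ℕ → ℕ) → ℝ) (c : ℕ → ℝ),
    (∀ q ∈ L, ∀ a : ℕ → ℕ, ∀ u < q, ∀ v < q,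
      |f (Function.update a q u) - f (Function.update a q v)| ≤ c q) →
    ∀ a : ℕ → ℕ,
      Av L (fun b => |f b - Av L f b|) a ≤ Real.sqrt ((L.map (fun q => c q ^ 2)).sum)

/-- LIP: changing the set in `m` places changes the statistic by at most `3 m` -/
def LIPG : Prop :=
  ∀ (s Y Y' : ℕ → ℝ), (∀ n, |s n| ≤ 1) → (∀ n, Y n = 0 ∨ Y n = 1) → (∀ n, Y' n = 0 ∨ Y' n = 1) →
    ∀ n, |(run s Y n).1 - (run s Y' n).1| ≤ 3 * ∑ i ∈ range n, |Y i - Y' i|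

/-- SEQ: the statistic and the truncated signed sum -/
def SEQG : Prop :=
  ∀ (X : ℕ → ℝ), (∀ n, X n = 0 ∨ X n = 1) → ∀ (H N : ℕ), 1 ≤ H →
    |B2 X N - ∑ t ∈ range N, X t * Helper90.Twin.sig X H t| ≤ N / H + 2

/-- CORE: the three means -/
def COREG : Prop :=
  ∀ ε : ℝ, 0 < ε → ∃ K0 : ℕ, ∀ K ≥ K0, ∀ᶠ r : ℕ in atTop, ∀ Z : ℕ, r ≤ Z → Z ≤ r ^ K →
    ∀ N : ℕ, r ^ (K - 2) ≤ N → ∀ A : ℕ → ℕ,
      |Av (lg r Z) (fun A => B0 (XA Z A) N) A - N * Gz Z| ≤ ε * (N * Gz Z) ∧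
      |Av (lg r Z) (fun A => B1 (XA Z A) N) A| ≤ ε * (N * Gz Z) ∧
      |Av (lg r Z) (fun A => B2 (XA Z A) N) A| ≤ ε * (N * Gz Z)

/-- BLK: the means of the block statistics -/
def BLKG : Prop :=
  ∀ ε : ℝ, 0 < ε → ∀ k : ℕ, ∃ K0 : ℕ, ∀ K ≥ K0, ∀ Z : ℕ → ℕ, Cut k Z → ∀ᶠ r : ℕ in atTop,
    ∀ β : ℕ → ℕ → (ℕ → ℕ) → ℕ, Adapted β → ∀ a : ℕ → ℕ,
      |EE K Z (T0 K Z β r) r a - mT K Z r| ≤ ε * mT K Z r ∧
      |EE K Z (T1 K Z β r) r a| ≤ ε * mT K Z r ∧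
      |EE K Z (T2 K Z β r) r a| ≤ ε * mT K Z r

/-- DIF: bounded differences of the block statistics -/
def DIFG : Prop :=
  ∀ (K : ℕ) (Z : ℕ → ℕ) (β : ℕ → ℕ → (ℕ → ℕ) → ℕ), Adapted β → ∀ (r : ℕ),
    ∀ q : ℕ, q.Prime → r < q → ∀ (a : ℕ → ℕ) (u v : ℕ),
      |T0 K Z β r (Function.update a q u) - T0 K Z β r (Function.update a q v)|
        ≤ 12 * ((len K r : ℝ) / q + 1) ∧
      |T1 K Z β r (Function.update a q u) - T1 K Z β r (Function.update a q v)|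
        ≤ 12 * ((len K r : ℝ) / q + 1) ∧
      |T2 K Z β r (Function.update a q u) - T2 K Z β r (Function.update a q v)|
        ≤ 12 * ((len K r : ℝ) / q + 1)

/-- LAW: resampling -/
def LAWG : Prop :=
  ∀ (Ω : Type) [MeasurableSpace Ω] (μ : Measure Ω) [IsProbabilityMeasure μ] (ω : ℕ → Ω → ℕ),
    Uni μ ω → ∀ (L : List ℕ), L.Nodup → (∀ q ∈ L, q.Prime) → ∀ (M : ℕ) (f : (ℕ → ℕ) → ℝ),
      (∀ a a' : ℕ → ℕ, (∀ q ≤ M, a q = a' q) → f a = f a') → (∃ B : ℝ, ∀ a, |f a| ≤ B) →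
      Integrable (fun w => f (fun p => ω p w)) μ ∧
        ∫ w, f (fun p => ω p w) ∂μ = ∫ w, Av L f (fun p => ω p w) ∂μ

/-- LOC: the block statistics depend on finitely many classes -/
def LOCG : Prop :=
  ∀ (K : ℕ) (Z : ℕ → ℕ) (β : ℕ → ℕ → (ℕ → ℕ) → ℕ), Monotone Z → Adapted β → ∀ (r : ℕ),
    ∀ a a' : ℕ → ℕ, (∀ q ≤ max r (Z ((r + 1) ^ K)), a q = a' q) →
      T0 K Z β r a = T0 K Z β r a' ∧ T1 K Z β r a = T1 K Z β r a' ∧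
      T2 K Z β r a = T2 K Z β r a' ∧ Rem K Z β r a = Rem K Z β r a' ∧
      Dev K Z β r a = Dev K Z β r a'

/-- REM: expected loss by freezing the cutoff -/
def REMG : Prop :=
  ∀ (Ω : Type) [MeasurableSpace Ω] (μ : Measure Ω) [IsProbabilityMeasure μ] (ω : ℕ → Ω → ℕ),
    Uni μ ω → ∀ (K : ℕ), 1 ≤ K → ∀ (Z : ℕ → ℕ) (β : ℕ → ℕ → (ℕ → ℕ) → ℕ), Monotone Z →
      Adapted β → ∀ r : ℕ, 5 ≤ r → r ≤ Z (r ^ K) →
        ∫ w, Rem K Z β r (fun p => ω p w) ∂μ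
          ≤ len K r * ((∑ p ∈ Ps (Z ((r + 1) ^ K)), 2 / (p : ℝ)) - ∑ p ∈ Ps (Z (r ^ K)), 2 / (p : ℝ))

/-- EDV: expected total deviation -/
def EDVG : Prop :=
  ∀ k : ℕ, ∀ K : ℕ, 4 ≤ K → k ≤ K → ∀ Z : ℕ → ℕ, Cut k Z → ∃ C : ℝ, ∃ R0 : ℕ,
    ∀ (Ω : Type) [MeasurableSpace Ω] (μ : Measure Ω) [IsProbabilityMeasure μ] (ω : ℕ → Ω → ℕ),
      Uni μ ω → ∀ (β : ℕ → ℕ → (ℕ → ℕ) → ℕ), Adapted β → ∀ R : ℕ, 1 ≤ R →
        ∑ r ∈ Ico R0 R, ∫ w, Dev K Z β r (fun p => ω p w) ∂μ ≤ C * (R : ℝ) ^ ((K : ℝ) - 2 / 5)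

/-- LOW: the main terms dominate -/
def LOWG : Prop :=
  ∀ k : ℕ, ∀ K : ℕ, 4 ≤ K → k ≤ K → ∀ Z : ℕ → ℕ, Cut k Z → ∀ η : ℝ, 0 < η →
    ∀ᶠ R : ℕ in atTop,
      (R : ℝ) ^ ((K : ℝ) - 1 / 5) ≤ η * ∑ r ∈ range R, mT K Z r ∧
      (len K R : ℝ) ≤ η * ∑ r ∈ range R, mT K Z r

/-- DVS: almost surely the deviations are negligible -/
def DVSG : Prop :=
  ∀ k : ℕ, ∀ K : ℕ, 4 ≤ K → k ≤ K → ∀ Z : ℕ → ℕ, Cut k Z →
    ∀ (Ω : Type) [MeasurableSpace Ω] (μ : Measure Ω) [IsProbabilityMeasure μ] (ω : ℕ → Ω → ℕ),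
      Uni μ ω → ∀ (β : ℕ → ℕ → (ℕ → ℕ) → ℕ), Adapted β →
        ∀ᵐ w ∂μ, ∀ᶠ R : ℕ in atTop,
          ∑ r ∈ range R, Dev K Z β r (fun p => ω p w) ≤ (R : ℝ) ^ ((K : ℝ) - 1 / 5)

/-- PTH: the pathwise conclusion -/
def PTHG : Prop :=
  ∀ k : ℕ, ∀ K : ℕ, 4 ≤ K → k ≤ K → ∀ Z : ℕ → ℕ, Cut k Z →
    ∀ (β : ℕ → ℕ → (ℕ → ℕ) → ℕ) (a : ℕ → ℕ) (ε : ℝ), 0 < ε → ε ≤ 1 / 100 →
      (∀ᶠ r : ℕ in atTop,
        |EE K Z (T0 K Z β r) r a - mT K Z r| ≤ ε * mT K Z r ∧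
        |EE K Z (T1 K Z β r) r a| ≤ ε * mT K Z r ∧
        |EE K Z (T2 K Z β r) r a| ≤ ε * mT K Z r) →
      (∀ η : ℝ, 0 < η → ∀ᶠ R : ℕ in atTop,
        ∑ r ∈ range R, Dev K Z β r a ≤ η * ∑ r ∈ range R, mT K Z r ∧
        (R : ℝ) ≤ η * ∑ r ∈ range R, mT K Z r ∧
        (len K R : ℝ) ≤ η * ∑ r ∈ range R, mT K Z r) →
      ∀ c d : ℕ, (c = 1 ∨ c = 3) → (d = 1 ∨ d = 3) →
        ∀ᶠ x : ℕ in atTop, |delta (Pair K Z β a) x c d - 1 / 2| ≤ 20 * ε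

/-- the theorem -/
def MAING : Prop :=
  ∀ k : ℕ, ∀ ε : ℝ, 0 < ε → ∃ K0 : ℕ, ∀ K ≥ K0, ∀ Z : ℕ → ℕ, Cut k Z →
    ∀ (β : ℕ → ℕ → (ℕ → ℕ) → ℕ), Adapted β →
    ∀ (Ω : Type) [MeasurableSpace Ω] (μ : Measure Ω) [IsProbabilityMeasure μ] (ω : ℕ → Ω → ℕ),
      Uni μ ω → ∀ᵐ w ∂μ, ∀ c d : ℕ, (c = 1 ∨ c = 3) → (d = 1 ∨ d = 3) →
        ∀ᶠ x : ℕ in atTop, |delta (Pair K Z β (fun p => ω p w)) x c d - 1 / 2| ≤ ε

theorem main_of (hB : BLKG) (hL : LOWG) (hD : DVSG) (hP : PTHG) : MAING := by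
  intro k ε hε
  obtain ⟨K0, hK0⟩ := hB (min (ε / 20) (1 / 100)) (lt_min (by positivity) (by norm_num)) k
  refine ⟨max (max K0 4) k, ?_⟩
  intro K hK Z hZ β hβ Ω _ μ _ ω hω
  have hK1 : K0 ≤ K := le_trans (le_trans (le_max_left _ _) (le_max_left _ _)) hK
  have hK2 : 4 ≤ K := le_trans (le_trans (le_max_right _ _) (le_max_left _ _)) hK
  have hK3 : k ≤ K := le_trans (le_max_right _ _) hK
  filter_upwards [hD k K hK2 hK3 Z hZ Ω μ ω hω β hβ] with w hw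
  intro c d hc hd
  have hε' : 0 < min (ε / 20) (1 / 100 : ℝ) := lt_min (by positivity) (by norm_num)
  have h1 := hP k K hK2 hK3 Z hZ β (fun p => ω p w) (min (ε / 20) (1 / 100)) hε' (min_le_right _ _)
    ((hK0 K hK1 Z hZ).mono (fun r hr => hr β hβ _)) ?_ c d hc hd
  · filter_upwards [h1] with x hx
    refine hx.trans ?_
    have := min_le_left (ε / 20) (1 / 100 : ℝ)
    linarith
  · intro η hη
    filter_upwards [hw, hL k K hK2 hK3 Z hZ η hη, eventually_ge_atTop 1] with R h1 h2 h3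
    refine ⟨h1.trans h2.1, ?_, h2.2⟩
    refine le_trans ?_ h2.1
    have h4 : (1 : ℝ) ≤ R := by exact_mod_cast h3
    have h5 : (1 : ℝ) ≤ (K : ℝ) - 1 / 5 := by
      have : (4 : ℝ) ≤ K := by exact_mod_cast hK2
      linarith
    calc (R : ℝ) = (R : ℝ) ^ (1 : ℝ) := (Real.rpow_one _).symm
      _ ≤ _ := Real.rpow_le_rpow_of_exponent_le h4 h5

end Pool.Agent.Helper60.BFT
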