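import Pool.Agent.Helper90.TwinU

/-!
# The random sieve model of twin primes: definitions

`a : ℕ → ℕ` is an assignment of residue classes (`a p` modulo the prime `p`).
-/

set_option autoImplicit false

open Finset Filter Topology MeasureTheory ProbabilityTheory

namespace Pool.Agent.Helper60.BFT

/-! ### The sets -/

/-- `⌊n ^ (1 / K)⌋` -/
def root (K n : ℕ) : ℕ := Nat.findGreatest (fun r => r ^ K ≤ n) n

/-- The residue class removed modulo the prime `p` near `n`: the class `β r p a` if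
`p ≤ r = ⌊n ^ (1 / K)⌋`, and the class `a p` for the larger primes. -/
def cls (K : ℕ) (β : ℕ → ℕ → (ℕ → ℕ) → ℕ) (a : ℕ → ℕ) (n p : ℕ) : ℕ :=
  if p ≤ root K n then β (root K n) p a else a p

/-- `(n, n + 2)` is a pair of surviving odd integers: neither `n` nor `n + 2` is in the removed class
modulo `p`, for every prime `3 ≤ p ≤ Z n`. -/
def Pair (K : ℕ) (Z : ℕ → ℕ) (β : ℕ → ℕ → (ℕ → ℕ) → ℕ) (a : ℕ → ℕ) (n : ℕ) : Prop :=
  n % 2 = 1 ∧ ∀ p : ℕ, p.Prime → 3 ≤ p → p ≤ Z n →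
    ¬ n ≡ cls K β a n p [MOD p] ∧ ¬ n + 2 ≡ cls K β a n p [MOD p]

/-- For the increasing enumeration `s_0 < s_1 < …` of the numbers satisfying `P`: the number of
indices `i` with `s_i ≤ x` and `s_i ≡ c (mod 4)`. -/
noncomputable def count₁ (P : ℕ → Prop) (x c : ℕ) : ℕ :=
  {i : ℕ | Nat.nth P i ≤ x ∧ Nat.nth P i % 4 = c}.ncard

/-- The number of indices `i` with `s_i ≤ x`, `s_i ≡ c` and `s_{i+1} ≡ d (mod 4)`. -/
noncomputable def count₂ (P : ℕ → Prop) (x c d : ℕ) : ℕ :=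
  {i : ℕ | Nat.nth P i ≤ x ∧ Nat.nth P i % 4 = c ∧ Nat.nth P (i + 1) % 4 = d}.ncard

/-- The transition frequency `δ(x; 4; c|d)`. -/
noncomputable def delta (P : ℕ → Prop) (x c d : ℕ) : ℝ :=
  (count₂ P x c d : ℝ) / (count₁ P x c : ℝ)

/-! ### Averages over residue classes -/

/-- `Av L f a`: the average of `f` over all assignments obtained from `a` by replacing, for each
`q` in the list `L`, the value at `q` by an arbitrary element of `{0, …, q - 1}`. -/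
noncomputable def Av : List ℕ → ((ℕ → ℕ) → ℝ) → (ℕ → ℕ) → ℝ
  | [], f, a => f a
  | q :: L, f, a => (∑ c ∈ range q, Av L f (Function.update a q c)) / (q : ℝ)

/-- the primes `p ≥ 5` with `r < p ≤ Z` -/
noncomputable def lg (r Z : ℕ) : List ℕ := (Helper90.Twin.Ps Z \ Helper90.Twin.Ps r).toList

/-! ### Running sums over consecutive chosen elements -/

/-- `(run s Y n).1` is the sum of `s u * s v` over the pairs `u < v < n` of consecutive chosen
elements (`Y = 1` on the chosen elements, `Y = 0` elsewhere), `(run s Y n).2` is `s u` for the last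
chosen `u < n` (`0` if there is none). -/
noncomputable def run (s Y : ℕ → ℝ) : ℕ → ℝ × ℝ
  | 0 => (0, 0)
  | n + 1 => ((run s Y n).1 + Y n * s n * (run s Y n).2, Y n * s n + (1 - Y n) * (run s Y n).2)

/-! ### The sieve in the coordinate `t` -/

/-- `p` divides `6 t + A p` or `6 t + A p + 2` -/
def bad (A : ℕ → ℕ) (p t : ℕ) : Prop := p ∣ 6 * t + A p ∨ p ∣ 6 * t + A p + 2

open Classical in
/-- indicator of `bad` -/
noncomputable def yA (A : ℕ → ℕ) (p t : ℕ) : ℝ := if bad A p t then 1 else 0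

/-- indicator of the sifted set -/
noncomputable def XA (Z : ℕ) (A : ℕ → ℕ) (t : ℕ) : ℝ := Helper90.Twin.XX (Helper90.Twin.Ps Z) (yA A) t

/-- number of elements -/
noncomputable def B0 (X : ℕ → ℝ) (N : ℕ) : ℝ := ∑ t ∈ range N, X t

/-- alternating count -/
noncomputable def B1 (X : ℕ → ℝ) (N : ℕ) : ℝ := ∑ t ∈ range N, (-1 : ℝ) ^ t * X t

/-- signed count of the consecutive pairs -/
noncomputable def B2 (X : ℕ → ℝ) (N : ℕ) : ℝ := (run (fun t => (-1 : ℝ) ^ t) X N).1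

/-! ### The blocks -/

/-- length of the block `[r ^ K, (r + 1) ^ K)` -/
def len (K r : ℕ) : ℕ := (r + 1) ^ K - r ^ K

/-- the sign: `1` on `1 (mod 4)`, `-1` otherwise -/
def chi (n : ℕ) : ℝ := if n % 4 = 1 then 1 else -1

open Classical in
/-- indicator of the pairs, with the cutoff frozen at `Z (r ^ K)` -/
noncomputable def YF (K : ℕ) (Z : ℕ → ℕ) (β : ℕ → ℕ → (ℕ → ℕ) → ℕ) (r : ℕ) (a : ℕ → ℕ) (n : ℕ) :
    ℝ :=
  if n % 2 = 1 ∧ ∀ p : ℕ, p.Prime → 3 ≤ p → p ≤ Z (r ^ K) →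
    ¬ n ≡ (if p ≤ r then β r p a else a p) [MOD p] ∧
    ¬ n + 2 ≡ (if p ≤ r then β r p a else a p) [MOD p] then 1 else 0

open Classical in
/-- indicator of the pairs -/
noncomputable def YP (K : ℕ) (Z : ℕ → ℕ) (β : ℕ → ℕ → (ℕ → ℕ) → ℕ) (a : ℕ → ℕ) (n : ℕ) : ℝ :=
  if Pair K Z β a n then 1 else 0

/-- the three statistics of the frozen block -/
noncomputable def T0 (K : ℕ) (Z : ℕ → ℕ) (β : ℕ → ℕ → (ℕ → ℕ) → ℕ) (r : ℕ) (a : ℕ → ℕ) : ℝ :=
  ∑ i ∈ range (len K r), YF K Z β r a (r ^ K + i)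

noncomputable def T1 (K : ℕ) (Z : ℕ → ℕ) (β : ℕ → ℕ → (ℕ → ℕ) → ℕ) (r : ℕ) (a : ℕ → ℕ) : ℝ :=
  ∑ i ∈ range (len K r), chi (r ^ K + i) * YF K Z β r a (r ^ K + i)

noncomputable def T2 (K : ℕ) (Z : ℕ → ℕ) (β : ℕ → ℕ → (ℕ → ℕ) → ℕ) (r : ℕ) (a : ℕ → ℕ) : ℝ :=
  (run (fun i => chi (r ^ K + i)) (fun i => YF K Z β r a (r ^ K + i)) (len K r)).1

/-- the number of elements lost by freezing the cutoff -/
noncomputable def Rem (K : ℕ) (Z : ℕ → ℕ) (β : ℕ → ℕ → (ℕ → ℕ) → ℕ) (r : ℕ) (a : ℕ → ℕ) : ℝ :=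
  ∑ i ∈ range (len K r), |YF K Z β r a (r ^ K + i) - YP K Z β a (r ^ K + i)|

/-- the main term -/
noncomputable def mT (K : ℕ) (Z : ℕ → ℕ) (r : ℕ) : ℝ := len K r * Helper90.Twin.Gz (Z (r ^ K)) / 6

/-- the averages over the large classes -/
noncomputable def EE (K : ℕ) (Z : ℕ → ℕ) (T : (ℕ → ℕ) → ℝ) (r : ℕ) (a : ℕ → ℕ) : ℝ :=
  Av (lg r (Z (r ^ K))) T a

/-- the total deviation in the block -/
noncomputable def Dev (K : ℕ) (Z : ℕ → ℕ) (β : ℕ → ℕ → (ℕ → ℕ) → ℕ) (r : ℕ) (a : ℕ → ℕ) : ℝ :=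
  |T0 K Z β r a - EE K Z (T0 K Z β r) r a| + |T1 K Z β r a - EE K Z (T1 K Z β r) r a|
    + |T2 K Z β r a - EE K Z (T2 K Z β r) r a| + Rem K Z β r a

/-- the small classes depend on the classes modulo primes `≤ r` only -/
def Adapted (β : ℕ → ℕ → (ℕ → ℕ) → ℕ) : Prop :=
  ∀ r p : ℕ, p ≤ r → ∀ a a' : ℕ → ℕ, (∀ q ≤ r, a q = a' q) → β r p a = β r p a'

/-- admissible cutoffs: `n ^ (1 / k) ≤ Z n ≤ n` -/
structure Cut (k : ℕ) (Z : ℕ → ℕ) : Prop where
  mono : Monotone Z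
  le : ∀ n, Z n ≤ n
  low : ∀ᶠ n : ℕ in atTop, n ≤ Z n ^ k

/-- independent uniform residue classes -/
structure Uni {Ω : Type*} [MeasurableSpace Ω] (μ : Measure Ω) (ω : ℕ → Ω → ℕ) : Prop where
  meas : ∀ p, Measurable (ω p)
  indep : iIndepFun ω μ
  unif : ∀ p : ℕ, p.Prime → ∀ c < p, μ {w | ω p w = c} = (p : ENNReal)⁻¹

end Pool.Agent.Helper60.BFT
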