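import Pool.Agent.Helper60.BFT.Pure
import Pool.Agent.Helper60.BFT.Core
import Pool.Agent.Helper64.BFT.LipSeq
import Pool.Agent.Helper88.BFT.Pth
import Pool.Agent.Helper75.BFT.Law
import Pool.Agent.Helper32.BFT.FU
import Pool.Agent.Helper9.BFT.KT
import Pool.Agent.Helper12.BFT.BLK
import Pool.Agent.Helper61.BFT.Var
import Pool.Agent.Helper61.BFT.Rem
import Pool.Agent.Helper87.BFT.LOW
import Pool.Agent.Helper87.BFT.DVS
import Pool.Agent.Helper39.BFT.EDV
import Pool.Agent.Helper48.BFT.MI
import Pool.Agent.Helper93.BFT.SG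
import Pool.Agent.Helper30.BFT.DifLoc

/-!
# The hybrid random sieve: assembly
-/

set_option autoImplicit false

open Finset Filter Topology MeasureTheory ProbabilityTheory

namespace Pool.Agent.Helper60.BFT

theorem main_thm : MAING := by
  have hL : LIPG := Helper64.BFT.lipg
  have hS : SEQG := Helper64.BFT.seqg
  have hcore : COREG :=
    core_of Helper9.BFT.kt Helper32.BFT.fu (Helper48.BFT.mi Helper93.BFT.sgg hS)
  have hlaw : LAWG := Helper75.BFT.law
  have hdif : DIFG := Helper30.BFT.difG hL
  have hloc : LOCG := Helper30.BFT.locG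
  have hedv : EDVG := Helper39.BFT.edv Helper61.BFT.varg hdif hlaw hloc Helper61.BFT.remg
  exact main_of (Helper12.BFT.blk hcore) Helper87.BFT.low (Helper87.BFT.dvs hedv hlaw hloc)
    (Helper88.BFT.pth hL)

end Pool.Agent.Helper60.BFT
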