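import Pool.Agent.Helper60.BFT.Goals

/-!
# The pure random sieve
-/

set_option autoImplicit false

open Finset Filter Topology MeasureTheory ProbabilityTheory

namespace Pool.Agent.Helper60.BFT

/-- `(n, n + 2)` survives the random sieve: `n` is odd and for every prime `3 ≤ p ≤ Z n` neither `n`
nor `n + 2` is in the residue class `a p` modulo `p`. -/
def RPair (Z : ℕ → ℕ) (a : ℕ → ℕ) (n : ℕ) : Prop :=
  n % 2 = 1 ∧ ∀ p : ℕ, p.Prime → 3 ≤ p → p ≤ Z n → ¬ n ≡ a p [MOD p] ∧ ¬ n + 2 ≡ a p [MOD p]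

theorem pair_eq (K : ℕ) (Z : ℕ → ℕ) (a : ℕ → ℕ) :
    Pair K Z (fun _ p b => b p) a = RPair Z a := by
  funext n
  unfold Pair RPair cls
  simp

theorem adapted_eval : Adapted (fun _ p b => b p) := by
  intro r p hp a a' h
  exact h p hp

/-- the pure model, from the hybrid one -/
theorem pure_of (hM : MAING) (k : ℕ) (Z : ℕ → ℕ) (hZ : Cut k Z) (Ω : Type) [MeasurableSpace Ω]
    (μ : Measure Ω) [IsProbabilityMeasure μ] (ω : ℕ → Ω → ℕ) (hω : Uni μ ω) :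
    ∀ᵐ w ∂μ, ∀ c d : ℕ, (c = 1 ∨ c = 3) → (d = 1 ∨ d = 3) →
      Tendsto (fun x => delta (RPair Z (fun p => ω p w)) x c d) atTop (𝓝 (1 / 2)) := by
  have h1 : ∀ m : ℕ, ∀ᵐ w ∂μ, ∀ c d : ℕ, (c = 1 ∨ c = 3) → (d = 1 ∨ d = 3) →
      ∀ᶠ x : ℕ in atTop, |delta (RPair Z (fun p => ω p w)) x c d - 1 / 2| ≤ 1 / ((m : ℝ) + 1) := by
    intro m
    obtain ⟨K0, hK0⟩ := hM k (1 / ((m : ℝ) + 1)) (by positivity)
    have h2 := hK0 K0 le_rfl Z hZ (fun _ p b => b p) adapted_eval Ω μ ω hω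
    simp only [pair_eq] at h2
    exact h2
  filter_upwards [ae_all_iff.2 h1] with w hw
  intro c d hc hd
  rw [Metric.tendsto_nhds]
  intro ε hε
  obtain ⟨m, hm⟩ := exists_nat_one_div_lt hε
  filter_upwards [hw m c d hc hd] with x hx
  rw [Real.dist_eq]
  exact lt_of_le_of_lt hx hm

end Pool.Agent.Helper60.BFT
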